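import Pool.Agent.Y516.OJ.Stm

/-!
# Project OJ, parts LEAF and HOL
-/

set_option autoImplicit false

namespace Pool.Agent.Y606.OJ.Leaf

open Finset
open Pool.Agent.Y516.OJ

theorem leafG {A B : Type} (p : Prot A B) : ∀ b : ℕ, p.depth ≤ b →
    ∃ (L : Type) (_ : Fintype L) (F : L → A → Bool) (G : L → B → Bool) (a : L → Bool),
      Fintype.card L ≤ 2 ^ b ∧ ∀ x y, (∃! l, F l x = true ∧ G l y = true) ∧
        ∀ l, F l x = true → G l y = true → p.run x y = a l := by
  induction p with
  | out a =>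
    intro b _
    refine ⟨Unit, inferInstance, fun _ _ => true, fun _ _ => true, fun _ => a, ?_, fun x y => ?_⟩
    · rw [Fintype.card_unit]
      exact Nat.one_le_two_pow
    · exact ⟨⟨(), ⟨rfl, rfl⟩, fun _ _ => rfl⟩, fun _ _ _ => rfl⟩
  | left f p q ihp ihq =>
    intro b hb
    have hb' : max p.depth q.depth + 1 ≤ b := hb
    obtain ⟨b', rfl⟩ : ∃ b', b = b' + 1 := ⟨b - 1, by omega⟩
    obtain ⟨L1, _, F1, G1, a1, hc1, h1⟩ := ihp b' (by omega)
    obtain ⟨L2, _, F2, G2, a2, hc2, h2⟩ := ihq b' (by omega)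
    refine ⟨L1 ⊕ L2, inferInstance,
      fun l x => Sum.elim (fun l => f x && F1 l x) (fun l => !(f x) && F2 l x) l,
      fun l y => Sum.elim (fun l => G1 l y) (fun l => G2 l y) l, Sum.elim a1 a2, ?_,
      fun x y => ?_⟩
    · rw [Fintype.card_sum, pow_succ]
      omega
    · cases hf : f x with
      | true =>
        obtain ⟨⟨l, hl, hu⟩, hr⟩ := h1 x y
        refine ⟨⟨Sum.inl l, ?_, ?_⟩, ?_⟩
        · simp only [Sum.elim_inl, hf, Bool.true_and]
          exact hl
        · rintro (l' | l') ⟨h3, h4⟩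
          · simp only [Sum.elim_inl, hf, Bool.true_and] at h3 h4
            rw [hu l' ⟨h3, h4⟩]
          · simp [hf] at h3
        · rintro (l' | l') h3 h4
          · simp only [Sum.elim_inl, hf, Bool.true_and] at h3 h4
            show (if f x then p.run x y else q.run x y) = a1 l'
            rw [hf, if_pos rfl]
            exact hr l' h3 h4
          · simp [hf] at h3
      | false =>
        obtain ⟨⟨l, hl, hu⟩, hr⟩ := h2 x y
        refine ⟨⟨Sum.inr l, ?_, ?_⟩, ?_⟩
        · simp only [Sum.elim_inr, hf, Bool.not_false, Bool.true_and]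
          exact hl
        · rintro (l' | l') ⟨h3, h4⟩
          · simp [hf] at h3
          · simp only [Sum.elim_inr, hf, Bool.not_false, Bool.true_and] at h3 h4
            rw [hu l' ⟨h3, h4⟩]
        · rintro (l' | l') h3 h4
          · simp [hf] at h3
          · simp only [Sum.elim_inr, hf, Bool.not_false, Bool.true_and] at h3 h4
            show (if f x then p.run x y else q.run x y) = a2 l'
            rw [hf, if_neg (by simp)]
            exact hr l' h3 h4
  | right g p q ihp ihq =>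
    intro b hb
    have hb' : max p.depth q.depth + 1 ≤ b := hb
    obtain ⟨b', rfl⟩ : ∃ b', b = b' + 1 := ⟨b - 1, by omega⟩
    obtain ⟨L1, _, F1, G1, a1, hc1, h1⟩ := ihp b' (by omega)
    obtain ⟨L2, _, F2, G2, a2, hc2, h2⟩ := ihq b' (by omega)
    refine ⟨L1 ⊕ L2, inferInstance,
      fun l x => Sum.elim (fun l => F1 l x) (fun l => F2 l x) l,
      fun l y => Sum.elim (fun l => g y && G1 l y) (fun l => !(g y) && G2 l y) l,
      Sum.elim a1 a2, ?_, fun x y => ?_⟩
    · rw [Fintype.card_sum, pow_succ]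
      omega
    · cases hf : g y with
      | true =>
        obtain ⟨⟨l, hl, hu⟩, hr⟩ := h1 x y
        refine ⟨⟨Sum.inl l, ?_, ?_⟩, ?_⟩
        · simp only [Sum.elim_inl, hf, Bool.true_and]
          exact hl
        · rintro (l' | l') ⟨h3, h4⟩
          · simp only [Sum.elim_inl, hf, Bool.true_and] at h3 h4
            rw [hu l' ⟨h3, h4⟩]
          · simp [hf] at h4
        · rintro (l' | l') h3 h4
          · simp only [Sum.elim_inl, hf, Bool.true_and] at h3 h4
            show (if g y then p.run x y else q.run x y) = a1 l'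
            rw [hf, if_pos rfl]
            exact hr l' h3 h4
          · simp [hf] at h4
      | false =>
        obtain ⟨⟨l, hl, hu⟩, hr⟩ := h2 x y
        refine ⟨⟨Sum.inr l, ?_, ?_⟩, ?_⟩
        · simp only [Sum.elim_inr, hf, Bool.not_false, Bool.true_and]
          exact hl
        · rintro (l' | l') ⟨h3, h4⟩
          · simp [hf] at h4
          · simp only [Sum.elim_inr, hf, Bool.not_false, Bool.true_and] at h3 h4
            rw [hu l' ⟨h3, h4⟩]
        · rintro (l' | l') h3 h4
          · simp [hf] at h4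
          · simp only [Sum.elim_inr, hf, Bool.not_false, Bool.true_and] at h3 h4
            show (if g y then p.run x y else q.run x y) = a2 l'
            rw [hf, if_neg (by simp)]
            exact hr l' h3 h4

theorem leaf : LeafStm := by
  intro A B p b hb
  classical
  obtain ⟨L, _, F, G, a, hc, h⟩ := leafG p b hb
  obtain ⟨ι⟩ : Nonempty (L ↪ Fin (2 ^ b)) :=
    Function.Embedding.nonempty_of_card_le (by rwa [Fintype.card_fin])
  refine ⟨fun j x => decide (∃ l, ι l = j ∧ F l x = true),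
    fun j y => decide (∃ l, ι l = j ∧ G l y = true),
    fun j => decide (∃ l, ι l = j ∧ a l = true), fun x y => ?_⟩
  obtain ⟨⟨l, hl, hu⟩, hr⟩ := h x y
  refine ⟨⟨ι l, ?_, ?_⟩, ?_⟩
  · simp only [decide_eq_true_iff]
    exact ⟨⟨l, rfl, hl.1⟩, ⟨l, rfl, hl.2⟩⟩
  · intro j hj
    simp only [decide_eq_true_iff] at hj
    obtain ⟨⟨l1, e1, h1⟩, ⟨l2, e2, h2⟩⟩ := hj
    have e3 : l1 = l2 := ι.injective (e1.trans e2.symm)
    rw [← e3] at h2
    rw [← e1, hu l1 ⟨h1, h2⟩]
  · intro j h1 h2
    rw [decide_eq_true_iff] at h1 h2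
    obtain ⟨l1, e1, h1⟩ := h1
    obtain ⟨l2, e2, h2⟩ := h2
    have e3 : l1 = l2 := ι.injective (e1.trans e2.symm)
    rw [← e3] at h2
    rw [hr l1 h1 h2, Bool.eq_iff_iff, decide_eq_true_iff]
    constructor
    · intro h3
      exact ⟨l1, e1, h3⟩
    · rintro ⟨l3, e4, h3⟩
      rwa [ι.injective (e1.trans e4.symm)]

theorem hol : HolStm := by
  intro R _ P δ hδ hP hsum
  rcases isEmpty_or_nonempty R with hR | hR
  · rw [Finset.univ_eq_empty, Finset.sum_empty]
    positivity
  have hc1 : (1 : ℝ) ≤ Fintype.card R := by exact_mod_cast Fintype.card_pos (α := R)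
  have hpq : (1 + δ).HolderConjugate ((1 + δ) / δ) := by
    rw [Real.holderConjugate_iff]
    refine ⟨by linarith, ?_⟩
    field_simp
  have h1 := Real.inner_le_Lp_mul_Lq_of_nonneg (Finset.univ : Finset R) hpq
    (f := fun r => P r ^ (1 / (1 + δ))) (g := fun _ => (1 : ℝ))
    (fun r _ => Real.rpow_nonneg (hP r) _) (fun _ _ => zero_le_one)
  have h2 : ∀ r, (P r ^ (1 / (1 + δ))) ^ (1 + δ) = P r := by
    intro r
    rw [← Real.rpow_mul (hP r), one_div, inv_mul_cancel₀ (by positivity), Real.rpow_one]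
  simp only [mul_one, h2, Real.one_rpow, Finset.sum_const, Finset.card_univ, nsmul_eq_mul] at h1
  have h3 : (∑ r, P r) ^ (1 / (1 + δ)) ≤ 1 :=
    Real.rpow_le_one (Finset.sum_nonneg fun r _ => hP r) hsum (by positivity)
  have h4 : (Fintype.card R : ℝ) ^ (1 / ((1 + δ) / δ)) ≤ (Fintype.card R : ℝ) ^ δ := by
    refine Real.rpow_le_rpow_of_exponent_le hc1 ?_
    rw [one_div_div, div_le_iff₀ (by positivity)]
    nlinarith
  calc ∑ r, P r ^ (1 / (1 + δ)) ≤ (∑ r, P r) ^ (1 / (1 + δ)) *
        (Fintype.card R : ℝ) ^ (1 / ((1 + δ) / δ)) := h1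
    _ ≤ 1 * (Fintype.card R : ℝ) ^ δ := mul_le_mul h3 h4 (by positivity) zero_le_one
    _ = _ := one_mul _

end Pool.Agent.Y606.OJ.Leaf
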